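import Pool.Agent.Lib.MP_b1a3a4_al.MVS.TH.Iface

set_option linter.all false

namespace Pool.Agent.Lib.MP_b1a3a4_al.MVS.TH.H31

open Pool.Agent.Lib.MP_b1a3a4_al.MVS.TH

/-- DEFO (13.22): Eilenberg's deformation. -/
theorem defo (hfam : FamStatement) (hretr : RetrStatement) (hfilli : FilliStatement)
    (hrecd : RecdStatement) : DefoStatement := by
  intro S V Z _ _ n k up h lam B D₁ β hD₁ hk hkn anti hβ hEC
  classical
  have hEC' : ∀ j, ∃ D : ℝ, 0 ≤ D ∧ (j < k → ∀ t, Fills j (up t) (up (t - D))) := by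
    intro j
    by_cases hj : j < k
    · obtain ⟨D, h0, hD⟩ := hEC j hj
      exact ⟨D, h0, fun _ => hD⟩
    · exact ⟨0, le_refl _, fun h' => absurd h' hj⟩
  choose dj hdj0 hdj using hEC'
  set E : ℕ → ℝ := fun q => D₁ + ∑ j ∈ Finset.range (q + 1), dj j with hE
  have hEs : ∀ q, E (q + 1) = E q + dj (q + 1) := by
    intro q
    simp only [hE]
    rw [Finset.sum_range_succ _ (q + 1)]
    ring
  have hEm : ∀ q, E q ≤ E (q + 1) := by
    intro q
    rw [hEs]
    linarith [hdj0 (q + 1)]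
  have hEmono : Monotone E := monotone_nat_of_le_succ hEm
  have hED : ∀ q, D₁ ≤ E q := by
    intro q
    simp only [hE]
    have : 0 ≤ ∑ j ∈ Finset.range (q + 1), dj j := Finset.sum_nonneg (fun j _ => hdj0 j)
    linarith
  refine ⟨E (k + 1), hED _, ?_⟩
  intro t y hy
  haveI : Nonempty C(unitInterval, Z) := ⟨ContinuousMap.const _ y⟩
  have hyA : ∀ D, 0 ≤ D → y ∈ up (t - D) := fun D hD => anti (t - D) t (by linarith) hy
  have key := hrecd V C(unitInterval, Z) (fun q c => Bd lam B c ∧ Up h t c)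
    (fun q c f => Continuous f ∧ (∀ x s, f x s ∈ up (t - E q)) ∧ (∀ x, f x 0 = β q c x) ∧
      (q < k → ∀ x, f x 1 = y)) (k + 1)
    (fun q c i ε hc => ⟨bd_fc hc.1 i ε, up_fc hc.2 i ε⟩)
    (fun q c i hc => ⟨bd_dg hc.1 i, up_dg hc.2 i⟩)
    ?_ ?_ ?_
  · obtain ⟨P, hP1, hP2, hP3⟩ := key
    refine ⟨P, ?_, ?_, ?_⟩
    · intro q hq c hb hu
      obtain ⟨h1, h2, h3, h4⟩ := hP1 q hq c ⟨hb, hu⟩
      exact ⟨h1, fun x s => anti _ _ (by linarith [hEmono hq]) (h2 x s), h3, h4⟩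
    · intro q hq c hb hu i ε x
      exact hP2 q (by omega) c ⟨hb, hu⟩ i ε x
    · intro q hq c hb hu i x
      exact hP3 q (by omega) c ⟨hb, hu⟩ i x
  · intro c hc
    have h0 : (0 : ℕ) < k := by omega
    obtain ⟨F, hF1, hF2, hF3, hF4, -⟩ := hfilli Z 0 (up (t - D₁)) (up (t - D₁ - dj 0))
      (hdj 0 h0 (t - D₁)) (β 0 c) (fun _ => y) (fun _ => ContinuousMap.const _ y)
      (hβ.cont 0 (by omega) c hc.1) continuous_const (fun x => hβ.up 0 (by omega) c hc.1 t hc.2 x)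
      (fun _ => hyA D₁ hD₁) continuousOn_const
      (by rintro x ⟨i, -⟩; exact i.elim0)
    refine ⟨F, hF1, ?_, hF3, fun _ => hF4⟩
    intro x s
    have : t - E 0 = t - D₁ - dj 0 := by simp only [hE]; simp; ring
    rw [this]
    exact hF2 x s
  · rintro q c i f hq hc ⟨h1, h2, h3, h4⟩
    refine ⟨h1.comp (continuous_rem i), fun x s => anti _ _ (by linarith [hEm q]) (h2 _ s), ?_, ?_⟩
    · intro x
      rw [h3]
      exact (hβ.deg q (by omega) c hc.1 i x).symm
    · intro hq' x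
      exact h4 (by omega) _
  · intro q c hq hc hnd a ha hcomp
    obtain ⟨g, hg⟩ := hfam.2 C(unitInterval, Z) q a hcomp
    have hgc : ContinuousOn g (Cube.boundary (Fin (q + 1))) := by
      rw [hfam.1]
      intro i ε
      have : (fun x => g (fi i ε x)) = a i ε := funext (hg i ε)
      rw [this]
      exact (ha i ε).1
    have hg1 : ∀ x ∈ Cube.boundary (Fin (q + 1)), (∀ s, g x s ∈ up (t - E q)) ∧
        g x 0 = β (q + 1) c x ∧ (q < k → g x 1 = y) := by
      intro x hx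
      obtain ⟨i, ε, x', rfl⟩ := (mem_boundary_iff x).1 hx
      rw [hg]
      obtain ⟨h1, h2, h3, h4⟩ := ha i ε
      refine ⟨h2 x', ?_, fun hq' => h4 hq' x'⟩
      rw [h3]
      exact (hβ.face q (by omega) c hc.1 i ε x').symm
    have hbc : Continuous (β (q + 1) c) := hβ.cont (q + 1) (by omega) c hc.1
    have hbu : ∀ x, β (q + 1) c x ∈ up (t - D₁) := fun x =>
      hβ.up (q + 1) (by omega) c hc.1 t hc.2 x
    by_cases hqk : q + 1 < k
    · obtain ⟨F, hF1, hF2, hF3, hF4, hF5⟩ := hfilli Z (q + 1) (up (t - E q))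
        (up (t - E q - dj (q + 1))) (hdj (q + 1) hqk (t - E q)) (β (q + 1) c) (fun _ => y) g
        hbc continuous_const (fun x => anti _ _ (by linarith [hED q]) (hbu x))
        (fun _ => hyA _ (by linarith [hED q])) hgc
        (fun x hx => ⟨(hg1 x hx).1, (hg1 x hx).2.1, (hg1 x hx).2.2 (by omega)⟩)
      refine ⟨F, ⟨hF1, ?_, hF3, fun _ => hF4⟩, ?_⟩
      · intro x s
        have : t - E (q + 1) = t - E q - dj (q + 1) := by rw [hEs]; ring
        rw [this]
        exact hF2 x s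
      · intro i ε x
        rw [hF5 _ (fi_mem_boundary i ε x), hg]
    · obtain ⟨F, hF1, hF2, hF3, hF5⟩ := hretr Z (q + 1) (up (t - E (q + 1))) (β (q + 1) c) g hbc
        (fun x => anti _ _ (by linarith [hED (q + 1)]) (hbu x)) hgc
        (fun x hx => ⟨fun s => anti _ _ (by linarith [hEm q]) ((hg1 x hx).1 s), (hg1 x hx).2.1⟩)
      refine ⟨F, ⟨hF1, hF2, hF3, fun h' => absurd h' hqk⟩, ?_⟩
      intro i ε x
      rw [hF5 _ (fi_mem_boundary i ε x), hg]

end Pool.Agent.Lib.MP_b1a3a4_al.MVS.TH.H31
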