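import Pool.Agent.Lib.MP_b1a3a4_al.MVS.TH.Iface

set_option linter.all false

namespace Pool.Agent.Lib.MP_b1a3a4_al.MVS.TH.H31

open Pool.Agent.Lib.MP_b1a3a4_al.MVS.TH MVS MVS.HO

/-- the labelled edge from `u` to `v` -/
def edge {V : Type} (u v : V) : Lab V 1 := fun b => if b 0 then v else u

/-- the labelled square `u, v, u, w` -/
def squ {V : Type} (u v w : V) : Lab V 2 := fun b => if b 0 then (if b 1 then w else v) else u

lemma ins01 {α : Type} (a b : α) :
    (ins (1 : Fin 2) a (fun _ : Fin 1 => b)) = ins (0 : Fin 2) b (fun _ : Fin 1 => a) := by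
  rw [ins_eq_iff]
  constructor
  · have h := ins_succAbove (0 : Fin 2) b (fun _ : Fin 1 => a) 0
    simpa using h.symm
  · funext j
    have hj : j = 0 := Subsingleton.elim _ _
    subst hj
    simp only [rem_apply]
    have h0 : (1 : Fin 2).succAbove (0 : Fin 1) = 0 := by decide
    rw [h0, ins_same]

lemma fc_squ_1f {V : Type} (u v w : V) : fc 1 false (squ u v w) = edge u v := by
  funext b
  have h0 : ins (1 : Fin 2) false b 0 = b 0 := by
    have h := ins_succAbove (1 : Fin 2) false b 0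
    have h0 : (1 : Fin 2).succAbove (0 : Fin 1) = 0 := by decide
    rwa [h0] at h
  have h1 : ins (1 : Fin 2) false b 1 = false := ins_same _ _ _
  simp only [fc, squ, edge, h0, h1]
  cases b 0 <;> simp

lemma fc_squ_1t {V : Type} (u v w : V) : fc 1 true (squ u v w) = edge u w := by
  funext b
  have h0 : ins (1 : Fin 2) true b 0 = b 0 := by
    have h := ins_succAbove (1 : Fin 2) true b 0
    have h0 : (1 : Fin 2).succAbove (0 : Fin 1) = 0 := by decide
    rwa [h0] at h
  have h1 : ins (1 : Fin 2) true b 1 = true := ins_same _ _ _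
  simp only [fc, squ, edge, h0, h1]
  cases b 0 <;> simp

lemma fc_squ_0t {V : Type} (u v w : V) : fc 0 true (squ u v w) = edge v w := by
  funext b
  have h0 : ins (0 : Fin 2) true b 1 = b 0 := by
    have h := ins_succAbove (0 : Fin 2) true b 0
    have h0 : (0 : Fin 2).succAbove (0 : Fin 1) = 1 := by decide
    rwa [h0] at h
  have h1 : ins (0 : Fin 2) true b 0 = true := ins_same _ _ _
  simp only [fc, squ, edge, h0, h1]
  cases b 0 <;> simp

lemma fc_squ_0f {V : Type} (u v w : V) : fc 0 false (squ u v w) = edge u u := by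
  funext b
  have h1 : ins (0 : Fin 2) false b 0 = false := ins_same _ _ _
  simp only [fc, squ, edge, h1]
  cases b 0 <;> simp

lemma edge_self {V : Type} (u : V) : edge u u = dg 0 (fun _ => u : Lab V 0) := by
  funext b
  simp [edge, dg]

lemma lab_eq_edge {V : Type} (G : (Fin 1 → ℕ) → V) (p : ℕ) :
    lab G (fun _ => p) = edge (G (fun _ => p)) (G (fun _ => p + 1)) := by
  funext b
  have h : (fun i : Fin 1 => p + (b i).toNat) = fun _ => p + (b 0).toNat := by
    funext i
    have : i = 0 := Subsingleton.elim _ _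
    rw [this]
  simp only [lab, edge]
  rw [h]
  cases b 0 <;> simp

lemma lam_edge {V : Type} (u v : V) (x : Fin 1 → Bool) : edge u v x = u ∨ edge u v x = v := by
  unfold edge
  cases x 0 <;> simp

/-- the edges of the grid with `N` cubes -/
lemma bd_edge {S V : Type} [Group S] {lam : V → S} {B : Set S} {u v : V}
    (h : Bd lam B (edge u v)) : (lam u)⁻¹ * lam v ∈ B := by
  have := h (fun _ => false) (fun _ => true)
  simpa [edge] using this

lemma up_edge {V : Type} {h : V → ℝ} {t : ℝ} {u v : V} (hu : Up h t (edge u v)) :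
    t ≤ h u ∧ t ≤ h v := by
  have h1 := hu (fun _ => false)
  have h2 := hu (fun _ => true)
  simp only [edge] at h1 h2
  exact ⟨by simpa using h1, by simpa using h2⟩

lemma range_two_mul_prod {P : Type} [Monoid P] (N : ℕ) (a : ℕ → P) :
    ((List.range (N + N)).map a).prod =
      ((List.range N).map a).prod * ((List.range N).map (fun j => a (N + j))).prod := by
  rw [List.range_add, List.map_append, List.prod_append, List.map_map]
  rfl

/-- EC1 (13.25). -/
theorem ec1 (hpre : PreStatement) (hloops : LoopsStatement) (hcl : ClStatement)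
    (hhat : HatbaseStatement) (hgrid : Grid1Statement) (hhatc : HatcStatement) :
    Ec1Statement := by
  intro S V Z _ _ _ χ n up h lam hgeo hn r φ R hφ hRfin hker hsig hec0
  classical
  obtain ⟨B₀, D₀, hB₀, hD₀, hpre⟩ := hpre S V Z χ n 1 up h lam hgeo le_rfl hn
    (fun j hj => by
      have : j = 0 := by omega
      rw [this]; exact hec0)
  obtain ⟨B', D', hB', hD', hloop⟩ := hloops S V χ h lam hgeo.labs r φ R hφ hRfin hker hsig B₀ hB₀
  obtain ⟨D₂, hD₂, hpre⟩ := hpre (B₀ ∪ B') (D₀ + D') (hB₀.union hB') Set.subset_union_left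
    (by linarith)
  refine ⟨D₂, hD₂, ?_⟩
  intro t
  rw [fills_iff]
  intro f hf
  obtain ⟨m, G, y, γ, Rr, hlab, hy, hγ, hRb, hRz, hext⟩ := hpre t f hf
  refine hext ?_
  -- abbreviations
  set B : Set Z := up (t - D₂) with hB
  obtain ⟨⟨P, hP, cl, hcl1⟩, -⟩ := hcl Z B y hy 0
  have hN : (1 : ℕ) ≤ 2 ^ m := Nat.one_le_two_pow
  have hNpos : (0 : ℝ) < 2 ^ m := by positivity
  -- boundary values of `γ 1`
  have hγ1 : ∀ c : Lab V 1, Bd lam (B₀ ∪ B') c → Up h (t - (D₀ + D')) c →
      ∀ x ∈ Cube.boundary (Fin 1), γ 1 c x = y := by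
    intro c hb hu x hx
    obtain ⟨i, δ, x', rfl⟩ := (mem_boundary_iff x).1 hx
    rw [hγ.face 0 (by omega) c ⟨hb, hu⟩]
    exact hγ.base 0 (by omega) _ ⟨bd_fc hb i δ, up_fc hu i δ⟩ _
  -- boundary labels are admissible
  have hadm : ∀ (i : Fin 2) (ε : Bool) (p : Fin 1 → ℕ), (∀ j, p j < 2 ^ m) →
      Bd lam (B₀ ∪ B') (lab (gf i ε (2 ^ m) G) p) ∧
      Up h (t - (D₀ + D')) (lab (gf i ε (2 ^ m) G) p) := by
    intro i ε p hp
    obtain ⟨h1, h2⟩ := hlab i ε p hp
    exact ⟨bd_mono Set.subset_union_left h1, up_mono (by linarith) h2⟩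
  -- grid points
  have hgp : ∀ (i : Fin 2) (ε : Bool) (x : Cu 1), (∃ j : ℕ, (x 0 : ℝ) * 2 ^ m = j) →
      Rr (fi i ε x) = y := by
    rintro i ε x ⟨j, hj⟩
    obtain ⟨p, hp, z, rfl⟩ := sc_cover m x
    have h1 : Rr (fi i ε (sc m p z)) = γ 1 (lab (gf i ε (2 ^ m) G) p) z := hRz i ε p hp z
    rw [h1]
    obtain ⟨a1, a2⟩ := hadm i ε p hp
    refine hγ1 _ a1 a2 z ⟨0, ?_⟩
    rw [sc_val m p z 0 (hp 0)] at hj
    have h2 : (p 0 : ℝ) + z 0 = j := by
      rw [div_mul_cancel₀ _ hNpos.ne'] at hj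
      exact hj
    have h3 := (z 0).2.1
    have h4 := (z 0).2.2
    have h5 : (p 0 : ℕ) ≤ j := by
      have : (p 0 : ℝ) ≤ j := by linarith
      exact_mod_cast this
    have h6 : j ≤ p 0 + 1 := by
      have : (j : ℝ) ≤ p 0 + 1 := by linarith
      exact_mod_cast this
    rcases Nat.lt_or_ge (p 0) j with h7 | h7
    · have h8 : j = p 0 + 1 := by omega
      right
      apply Subtype.ext
      rw [h8] at h2
      push_cast at h2
      show (z 0 : ℝ) = 1
      linarith
    · have h8 : j = p 0 := by omega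
      left
      apply Subtype.ext
      rw [h8] at h2
      show (z 0 : ℝ) = 0
      linarith
  have hgood : ∀ i ε, Good B y (fun x => Rr (fi i ε x)) := by
    intro i ε
    refine ⟨?_, ?_, ?_⟩
    · exact hRb.1.comp_continuous (continuous_fi i ε) (fun x => fi_mem_boundary i ε x)
    · intro x
      exact hRb.2 _ (fi_mem_boundary i ε x)
    · rintro x ⟨j, hj⟩
      have hj0 : j = 0 := Subsingleton.elim _ _
      subst hj0
      apply hgp
      rcases hj with hj | hj
      · exact ⟨0, by rw [hj]; simp⟩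
      · exact ⟨2 ^ m, by rw [hj]; simp⟩
  -- the class of a face
  set ψ : V → V → P := fun u v => cl (γ 1 (edge u v)) with hψ
  have hface : ∀ i ε, cl (fun x => Rr (fi i ε x)) = ((List.range (2 ^ m)).map (fun p =>
      ψ (gf i ε (2 ^ m) G (fun _ => p)) (gf i ε (2 ^ m) G (fun _ => p + 1)))).prod := by
    intro i ε
    rw [hgrid Z B y P cl hcl1 (fun x => Rr (fi i ε x)) m (hgood i ε) (hgp i ε)]
    congr 1
    refine List.map_congr_left (fun p hp => ?_)
    have hp' : p < 2 ^ m := List.mem_range.1 hp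
    simp only [hψ]
    congr 1
    funext x
    have h1 : Rr (fi i ε (sc m (fun _ => p) x)) = γ 1 (lab (gf i ε (2 ^ m) G) (fun _ => p)) x :=
      hRz i ε (fun _ => p) (fun _ => hp') x
    rw [h1, lab_eq_edge]
  -- multiplicativity
  have hmul : ∀ u v w, t - D₀ - D' ≤ h u → t - D₀ - D' ≤ h v → t - D₀ - D' ≤ h w →
      (∀ x ∈ ({u, v, w} : Set V), ∀ y ∈ ({u, v, w} : Set V), (lam x)⁻¹ * lam y ∈ B') →
      ψ u v * ψ v w = ψ u w := by
    intro u v w hu hv hw hb
    have hmem : ∀ b, squ u v w b ∈ ({u, v, w} : Set V) := by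
      intro b
      simp only [squ]
      cases b 0 <;> cases b 1 <;> simp
    have hbd : Bd lam (B₀ ∪ B') (squ u v w) := fun x y =>
      Set.mem_union_right _ (hb _ (hmem x) _ (hmem y))
    have hup : Up h (t - (D₀ + D')) (squ u v w) := by
      intro x
      rcases hmem x with h1 | h1 | h1 <;> rw [h1] <;> linarith
    have hgd : Gd2 B y (γ 2 (squ u v w)) := by
      refine ⟨hγ.cont 2 (by omega) _ ⟨hbd, hup⟩, hγ.mem 2 (by omega) _ ⟨hbd, hup⟩, ?_⟩
      rintro x ⟨i, j, hij, hi, hj⟩
      have hx : ∃ ε, x = fi i ε (rem i x) := by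
        rcases hi with hi | hi
        · exact ⟨false, by rw [fi, ev_false, ← hi, ins_rem]⟩
        · exact ⟨true, by rw [fi, ev_true, ← hi, ins_rem]⟩
      obtain ⟨ε, hx⟩ := hx
      obtain ⟨l, hl⟩ : ∃ l, j = i.succAbove l := by
        rcases Fin.eq_self_or_eq_succAbove i j with h1 | h1
        · exact absurd h1.symm hij
        · exact h1
      rw [hx, hγ.face 1 (by omega) _ ⟨hbd, hup⟩]
      refine hγ1 _ (bd_fc hbd i ε) (up_fc hup i ε) _ ⟨l, ?_⟩
      rw [rem_apply, ← hl]
      exact hj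
    have h1 := hhat Z B y 0 P cl hcl1 (γ 2 (squ u v w)) hgd (by
      intro i h0 h1
      exfalso
      fin_cases i
      · exact h0 rfl
      · exact h1 rfl)
    have hf : ∀ i ε, (fun x => γ 2 (squ u v w) (fi i ε x)) = γ 1 (fc i ε (squ u v w)) := by
      intro i ε
      funext x
      exact hγ.face 1 (by omega) _ ⟨hbd, hup⟩ i ε x
    rw [hf, hf, hf, hf, fc_squ_1f, fc_squ_0t, fc_squ_0f, fc_squ_1t] at h1
    have h2 : cl (γ 1 (edge u u)) = 1 := by
      rw [← hcl1.const]
      congr 1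
      funext x
      have hbu : Bd lam (B₀ ∪ B') (fun _ => u : Lab V 0) := fun _ _ =>
        Set.mem_union_right _ (hb u (by simp) u (by simp))
      have huu : Up h (t - (D₀ + D')) (fun _ => u : Lab V 0) := fun _ => by
        show t - (D₀ + D') ≤ h u
        linarith
      rw [edge_self, hγ.deg 0 (by omega) _ ⟨hbu, huu⟩]
      exact hγ.base 0 (by omega) _ ⟨hbu, huu⟩ _
    rw [h2, one_mul] at h1
    exact h1
  -- the two paths
  set N : ℕ := 2 ^ m with hNdef
  set fp : ℕ → V := fun j => G (ins 1 (j - N) (fun _ => min j N)) with hfp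
  set gp' : ℕ → V := fun j => G (ins 0 (j - N) (fun _ => min j N)) with hgp'
  have fp1 : ∀ j, j ≤ N → fp j = gf 1 false N G (fun _ => j) := by
    intro j hj
    simp only [hfp, gf]
    rw [Nat.sub_eq_zero_of_le hj, min_eq_left hj]
    simp
  have fp2 : ∀ j, fp (N + j) = gf 0 true N G (fun _ => j) := by
    intro j
    simp only [hfp, gf]
    rw [Nat.add_sub_cancel_left, min_eq_right (Nat.le_add_right N j), ins01]
    simp
  have gp1 : ∀ j, j ≤ N → gp' j = gf 0 false N G (fun _ => j) := by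
    intro j hj
    simp only [hgp', gf]
    rw [Nat.sub_eq_zero_of_le hj, min_eq_left hj]
    simp
  have gp2 : ∀ j, gp' (N + j) = gf 1 true N G (fun _ => j) := by
    intro j
    simp only [hgp', gf]
    rw [Nat.add_sub_cancel_left, min_eq_right (Nat.le_add_right N j), ← ins01]
    simp
  have hedge : ∀ (i : Fin 2) (ε : Bool) (p : ℕ), p < N →
      (lam (gf i ε N G (fun _ => p)))⁻¹ * lam (gf i ε N G (fun _ => p + 1)) ∈ B₀ ∧
      t - D₀ ≤ h (gf i ε N G (fun _ => p)) ∧ t - D₀ ≤ h (gf i ε N G (fun _ => p + 1)) := by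
    intro i ε p hp
    obtain ⟨h1, h2⟩ := hlab i ε (fun _ => p) (fun _ => hp)
    rw [lab_eq_edge] at h1 h2
    exact ⟨bd_edge h1, up_edge h2⟩
  have hht : ∀ (i : Fin 2) (ε : Bool) (p : ℕ), p ≤ N → t - D₀ ≤ h (gf i ε N G (fun _ => p)) := by
    intro i ε p hp
    rcases Nat.lt_or_ge p N with h1 | h1
    · exact (hedge i ε p h1).2.1
    · have h2 : p = (N - 1) + 1 := by omega
      rw [h2]
      exact (hedge i ε (N - 1) (by omega)).2.2
  have hloop' := hloop (t - D₀) P ψ hmul (N + N) fp gp'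
    (by
      rw [fp1 0 (Nat.zero_le _), gp1 0 (Nat.zero_le _)]
      simp only [gf]
      simp only [Bool.false_eq_true, if_false]
      rw [ins01])
    (by
      rw [fp2, gp2]
      simp only [gf, if_true]
      rw [← ins01])
    (by
      intro j hj
      rcases Nat.le_total j N with h1 | h1
      · rw [fp1 j h1, gp1 j h1]
        exact ⟨hht _ _ _ h1, hht _ _ _ h1⟩
      · obtain ⟨l, rfl⟩ := Nat.exists_eq_add_of_le h1
        rw [fp2, gp2]
        exact ⟨hht _ _ _ (by omega), hht _ _ _ (by omega)⟩)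
    (by
      intro j hj
      rcases Nat.lt_or_ge j N with h1 | h1
      · rw [fp1 j h1.le, gp1 j h1.le, fp1 (j + 1) h1, gp1 (j + 1) h1]
        exact ⟨(hedge _ _ _ h1).1, (hedge _ _ _ h1).1⟩
      · obtain ⟨l, rfl⟩ := Nat.exists_eq_add_of_le h1
        rw [add_assoc, fp2, gp2, fp2, gp2]
        exact ⟨(hedge _ _ _ (by omega)).1, (hedge _ _ _ (by omega)).1⟩)
  rw [range_two_mul_prod, range_two_mul_prod] at hloop'
  refine hhatc.2 Z B y P cl hcl1 Rr hRb.1 hgood ?_
  rw [hface, hface, hface, hface]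
  have e1 : ∀ p ∈ List.range N, ψ (fp p) (fp (p + 1)) =
      ψ (gf 1 false N G (fun _ => p)) (gf 1 false N G (fun _ => p + 1)) := by
    intro p hp
    have hp' := List.mem_range.1 hp
    rw [fp1 p hp'.le, fp1 (p + 1) hp']
  have e2 : ∀ p ∈ List.range N, ψ (gp' p) (gp' (p + 1)) =
      ψ (gf 0 false N G (fun _ => p)) (gf 0 false N G (fun _ => p + 1)) := by
    intro p hp
    have hp' := List.mem_range.1 hp
    rw [gp1 p hp'.le, gp1 (p + 1) hp']
  rw [List.map_congr_left e1, List.map_congr_left e2] at hloop'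
  simp only [add_assoc, fp2, gp2] at hloop'
  exact hloop'

end Pool.Agent.Lib.MP_b1a3a4_al.MVS.TH.H31
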