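import Pool.Agent.Lib.MP_b1a3a4_al.MVS.TH.Iface

set_option linter.all false

namespace Pool.Agent.Lib.MP_b1a3a4_al.MVS.TH.H31

open Pool.Agent.Lib.MP_b1a3a4_al.MVS.TH

/-- the grid point `P / 2^m` -/
noncomputable def gp {q : ℕ} (m : ℕ) (P : Fin q → ℕ) : Cu q :=
  fun i => Set.projIcc 0 1 zero_le_one ((P i : ℝ) / 2 ^ m)

lemma gp_val {q : ℕ} (m : ℕ) (P : Fin q → ℕ) (i : Fin q) (h : P i ≤ 2 ^ m) :
    (gp m P i : ℝ) = (P i : ℝ) / 2 ^ m := by
  have h1 : (0 : ℝ) ≤ (P i : ℝ) / 2 ^ m := by positivity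
  have h2 : (P i : ℝ) / 2 ^ m ≤ 1 := by
    rw [div_le_one (by positivity)]
    exact_mod_cast h
  rw [gp, Set.projIcc_of_mem zero_le_one ⟨h1, h2⟩]

/-- the corner of the small cube in a face of the grid -/
lemma dist_gp {q : ℕ} (m : ℕ) (i : Fin (q + 1)) (ε : Bool) (p : Fin q → ℕ)
    (hp : ∀ j, p j < 2 ^ m) (y : Cu q) (b : Fin q → Bool) :
    dist (fi i ε (sc m p y))
      (gp m (ins i (if ε then 2 ^ m else 0) (fun j => p j + (b j).toNat))) ≤ 1 / 2 ^ m := by
  have hN : (0 : ℝ) < 2 ^ m := by positivity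
  rw [dist_pi_le_iff (by positivity)]
  intro l
  rw [Subtype.dist_eq, Real.dist_eq]
  rcases Fin.eq_self_or_eq_succAbove i l with rfl | ⟨j, rfl⟩
  · rw [gp_val]
    · cases ε
      · simp [fi]
      · simp [fi]
    · cases ε <;> simp
  · rw [gp_val]
    · simp only [fi, ins_succAbove]
      rw [sc_val m p y j (hp j)]
      push_cast
      rw [div_sub_div_same, abs_div, abs_of_pos hN]
      refine div_le_div_of_nonneg_right ?_ hN.le
      have h1 := (y j).2.1
      have h2 := (y j).2.2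
      rw [abs_le]
      cases b j <;> simp <;> constructor <;> linarith
    · simp only [ins_succAbove]
      have := hp j
      cases b j <;> simp <;> omega

lemma gp_mem {q : ℕ} (m : ℕ) (i : Fin (q + 1)) (ε : Bool) (P : Fin q → ℕ) :
    gp m (ins i (if ε then 2 ^ m else 0) P) ∈ Cube.boundary (Fin (q + 1)) := by
  refine ⟨i, ?_⟩
  have h := gp_val m (ins i (if ε then 2 ^ m else 0) P) i (by cases ε <;> simp)
  cases ε
  · left
    apply Subtype.ext
    rw [h]
    simp
  · right
    apply Subtype.ext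
    rw [h]
    simp

lemma isCompact_bd (q : ℕ) : IsCompact (Cube.boundary (Fin q)) := by
  refine IsClosed.isCompact ?_
  have : Cube.boundary (Fin q) = ⋃ i : Fin q, ({x | x i = 0} ∪ {x | x i = 1}) := by
    ext x
    simp only [Cube.boundary, Set.mem_setOf_eq, Set.mem_iUnion, Set.mem_union]
  rw [this]
  refine isClosed_iUnion_of_finite (fun i => IsClosed.union ?_ ?_)
  · exact isClosed_eq (continuous_apply i) continuous_const
  · exact isClosed_eq (continuous_apply i) continuous_const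

/-- SMALL (13.31): simplicial approximation. -/
theorem small (hml : MlStatement) : SmallStatement := by
  intro V K down k f hf
  classical
  obtain ⟨-, -, -, hml0, hml1, hmls, -⟩ := hml
  obtain ⟨hfc, hfm⟩ := hf
  -- open sets
  have hU : ∀ v : V, ∃ u : Set (Cu (k + 1)), IsOpen u ∧
      {x | 0 < f x v} ∩ Cube.boundary (Fin (k + 1)) = u ∩ Cube.boundary (Fin (k + 1)) := by
    intro v
    have hc : ContinuousOn (fun x => f x v) (Cube.boundary (Fin (k + 1))) :=
      (continuous_apply v).comp_continuousOn hfc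
    obtain ⟨u, hu1, hu2⟩ := (continuousOn_iff'.1 hc) (Set.Ioi 0) isOpen_Ioi
    exact ⟨u, hu1, hu2⟩
  choose U hUo hUe using hU
  have hcov : Cube.boundary (Fin (k + 1)) ⊆ ⋃ v, U v := by
    intro x hx
    obtain ⟨h0, σ, hσ, hz, hs⟩ := hfm x hx
    have : ∃ v ∈ σ, 0 < f x v := by
      by_contra hcon
      push Not at hcon
      have : ∑ v ∈ σ, f x v ≤ 0 := Finset.sum_nonpos hcon
      linarith
    obtain ⟨v, -, hv⟩ := this
    have h2 : x ∈ U v ∩ Cube.boundary (Fin (k + 1)) := by
      rw [← hUe v]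
      exact ⟨hv, hx⟩
    exact Set.mem_iUnion.2 ⟨v, h2.1⟩
  obtain ⟨δ, hδ, hleb⟩ := lebesgue_number_lemma_of_metric (isCompact_bd (k + 1)) hUo hcov
  obtain ⟨m, hm⟩ := exists_pow_lt_of_lt_one hδ (by norm_num : (1 / 2 : ℝ) < 1)
  have hm' : 1 / (2 : ℝ) ^ m < δ := by
    rw [one_div_pow] at hm
    exact hm
  -- a vertex
  haveI : Nonempty V := by
    have h0 : (fun _ => 0 : Cu (k + 1)) ∈ Cube.boundary (Fin (k + 1)) := ⟨0, Or.inl rfl⟩
    obtain ⟨v, -⟩ := Set.mem_iUnion.1 (hcov h0)
    exact ⟨v⟩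
  have hG : ∀ P : Fin (k + 1) → ℕ, ∃ v : V, gp m P ∈ Cube.boundary (Fin (k + 1)) →
      Metric.ball (gp m P) δ ⊆ U v := by
    intro P
    by_cases hP : gp m P ∈ Cube.boundary (Fin (k + 1))
    · obtain ⟨v, hv⟩ := hleb _ hP
      exact ⟨v, fun _ => hv⟩
    · exact ⟨Classical.arbitrary V, fun h => absurd h hP⟩
  choose G hG using hG
  -- the key fact
  have key : ∀ (i : Fin (k + 1)) (ε : Bool) (p : Fin k → ℕ), (∀ j, p j < 2 ^ m) → ∀ (y : Cu k)
      (b : Fin k → Bool), 0 < f (fi i ε (sc m p y)) (lab (gf i ε (2 ^ m) G) p b) := by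
    intro i ε p hp y b
    have h1 := hG (ins i (if ε then 2 ^ m else 0) (fun j => p j + (b j).toNat)) (gp_mem _ _ _ _)
    have h2 : fi i ε (sc m p y) ∈ U (lab (gf i ε (2 ^ m) G) p b) := by
      refine h1 ?_
      rw [Metric.mem_ball]
      exact lt_of_le_of_lt (dist_gp m i ε p hp y b) hm'
    have h3 : fi i ε (sc m p y) ∈ {x | 0 < f x (lab (gf i ε (2 ^ m) G) p b)} ∩
        Cube.boundary (Fin (k + 1)) := by
      rw [hUe]
      exact ⟨h2, fi_mem_boundary i ε _⟩
    exact h3.1
  have key2 : ∀ (i : Fin (k + 1)) (ε : Bool) (p : Fin k → ℕ), (∀ j, p j < 2 ^ m) → ∀ (y : Cu k)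
      (σ : Finset V), (∀ v, v ∉ σ → f (fi i ε (sc m p y)) v = 0) →
      img (lab (gf i ε (2 ^ m) G) p) ⊆ σ := by
    intro i ε p hp y σ hσ v hv
    obtain ⟨b, rfl⟩ := (mem_img _ v).1 hv
    by_contra hcon
    have := key i ε p hp y b
    rw [hσ _ hcon] at this
    exact lt_irrefl _ this
  refine ⟨m, G, ?_, ?_⟩
  · intro i ε p hp
    obtain ⟨h0, σ, hσ, hz, hs⟩ := hfm (fi i ε (sc m p (fun _ => 0))) (fi_mem_boundary _ _ _)
    exact down σ hσ _ (key2 i ε p hp _ σ hz) ⟨_, (mem_img _ _).2 ⟨fun _ => false, rfl⟩⟩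
  · intro R hRc hR
    let H : Cu (k + 1) → C(unitInterval, V → ℝ) := fun x =>
      ⟨fun s => (1 - (s : ℝ)) • R x + (s : ℝ) • f x, by fun_prop⟩
    refine ⟨H, ?_, ?_⟩
    · rw [continuousOn_iff_continuous_restrict]
      refine ContinuousMap.continuous_of_continuous_uncurry _ ?_
      have h1 : Continuous ((Cube.boundary (Fin (k + 1))).domRestrict R) :=
        continuousOn_iff_continuous_restrict.1 hRc
      have h2 : Continuous ((Cube.boundary (Fin (k + 1))).domRestrict f) :=
        continuousOn_iff_continuous_restrict.1 hfc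
      have h3 : (Function.uncurry fun (x : Cube.boundary (Fin (k + 1))) (s : unitInterval) =>
          ((Cube.boundary (Fin (k + 1))).domRestrict H x) s) =
          fun z => (1 - (z.2 : ℝ)) • ((Cube.boundary (Fin (k + 1))).domRestrict R z.1) +
            (z.2 : ℝ) • ((Cube.boundary (Fin (k + 1))).domRestrict f z.1) := rfl
      rw [h3]
      have h4 : Continuous fun z : (Cube.boundary (Fin (k + 1))) × unitInterval => (z.2 : ℝ) :=
        continuous_subtype_val.comp continuous_snd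
      exact ((continuous_const.sub h4).smul (h1.comp continuous_fst)).add
        (h4.smul (h2.comp continuous_fst))
    · intro x hx
      refine ⟨?_, ?_, ?_⟩
      · intro s
        obtain ⟨i, ε, x', rfl⟩ := (mem_boundary_iff x).1 hx
        obtain ⟨p, hp, y, rfl⟩ := sc_cover m x'
        have hRx : R (fi i ε (sc m p y)) = ml (lab (gf i ε (2 ^ m) G) p) y := hR i ε p hp y
        obtain ⟨h0, σ, hσ, hz, hs⟩ := hfm (fi i ε (sc m p y)) (fi_mem_boundary _ _ _)
        have hsub := key2 i ε p hp y σ hz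
        have hRz : ∀ v, v ∉ σ → R (fi i ε (sc m p y)) v = 0 := by
          intro v hv
          rw [hRx]
          by_contra hcon
          obtain ⟨b, hb, -⟩ := hmls V k _ y v hcon
          exact hv (hsub ((mem_img _ v).2 ⟨b, hb⟩))
        have hR1 : ∑ v ∈ σ, R (fi i ε (sc m p y)) v = 1 := by
          rw [← hml1 V k (lab (gf i ε (2 ^ m) G) p) y, hRx]
          symm
          refine Finset.sum_subset hsub ?_
          intro v hv hv'
          by_contra hcon
          obtain ⟨b, hb, -⟩ := hmls V k _ y v hcon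
          exact hv' ((mem_img _ v).2 ⟨b, hb⟩)
        have hs0 := s.2.1
        have hs1 := s.2.2
        refine ⟨?_, σ, hσ, ?_, ?_⟩
        · intro v
          have e1 : 0 ≤ R (fi i ε (sc m p y)) v := by rw [hRx]; exact hml0 V k _ y v
          have e2 := h0 v
          show 0 ≤ (1 - (s : ℝ)) * R (fi i ε (sc m p y)) v + (s : ℝ) * f (fi i ε (sc m p y)) v
          have : 0 ≤ 1 - (s : ℝ) := by linarith
          positivity
        · intro v hv
          show (1 - (s : ℝ)) * R (fi i ε (sc m p y)) v + (s : ℝ) * f (fi i ε (sc m p y)) v = 0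
          rw [hRz v hv, hz v hv]
          ring
        · show ∑ v ∈ σ, ((1 - (s : ℝ)) * R (fi i ε (sc m p y)) v +
            (s : ℝ) * f (fi i ε (sc m p y)) v) = 1
          rw [Finset.sum_add_distrib, ← Finset.mul_sum, ← Finset.mul_sum, hR1, hs]
          ring
      · show (1 - ((0 : unitInterval) : ℝ)) • R x + ((0 : unitInterval) : ℝ) • f x = R x
        simp
      · show (1 - ((1 : unitInterval) : ℝ)) • R x + ((1 : unitInterval) : ℝ) • f x = f x
        simp

end Pool.Agent.Lib.MP_b1a3a4_al.MVS.TH.H31
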